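import Pool.Agent.H52DD.Super

/-!
# A superstable continuous theory which does not have enough d-definable sets

`S0` is the set `[0, 1] × ℕ` with the discrete metric (distance `1` between any two different points)
and one unary predicate `P(t, k) = t`; `Th S0` is its complete theory. All definitions are in
`Pool/Agent/H52DD/Defs.lean`.
-/

set_option autoImplicit false

namespace Pool.Agent.Results.MP_cc3859_lc.StableWithoutDefinableSets

open Pool.Agent.H52DD

/-- If the elements `a, b` outside `A` have different types over `A`, then the set of realisations of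
the type of `a` over `A` is not an intersection of d-definable sets over `A`. -/
theorem not_inter {M : Type} [MetricSpace M] [Nonempty M] {S : Str L0 M} (hS : Nice S)
    (A : Set M) (a b : Fin 1 → M) (ha : a 0 ∉ A) (hb : b 0 ∉ A) (hab : ¬ SameType S A b a) :
    ¬ ∃ C : Set (Set (Fin 1 → M)), (∀ D ∈ C, DDef S A D) ∧ {x | SameType S A x a} = ⋂₀ C := by
  rintro ⟨C, hC, h⟩
  apply hab
  change b ∈ {x | SameType S A x a}
  rw [h]
  intro D hD
  have haD : a ∈ D := by
    have : a ∈ ⋂₀ C := by rw [← h]; exact fun _ _ _ _ => rfl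
    exact this D hD
  obtain ⟨F, -, hFA, hF | hF⟩ := ddef_trivial hS A D (hC D hD)
  · exact absurd (hFA (hF a haD)) ha
  · exact hF b fun hb' => hb (hFA hb')

theorem not_inter_finite {M : Type} [MetricSpace M] [Nonempty M] {S : Str L0 M} (hS : Nice S)
    (A : Set M) (hA : A.Finite) (a : Fin 1 → M) (ha : a 0 ∉ A) :
    ¬ ∃ C : Set (Set (Fin 1 → M)), (∀ D ∈ C, DDef S A D) ∧ {x | SameType S A x a} = ⋂₀ C := by
  obtain ⟨k, f, hf⟩ := hA.fin_param
  -- an element outside `A` whose value of `P` is far from that of `a`
  let t : unitInterval := if (pv S (a 0) : ℝ) < 1 / 2 then 1 else 0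
  obtain ⟨y, hy1, hy2⟩ := hS.many k f t (1 / 4) (by norm_num)
  have hyA : y ∉ A := by
    rw [← hf.2]
    rintro ⟨i, hi⟩
    exact hy1 i hi.symm
  apply not_inter hS A a (fun _ => y) ha hyA
  intro h
  have h1 := pv_eq_of_sameType h
  change pv S y = pv S (a 0) at h1
  rw [h1] at hy2
  have h2 := abs_lt.1 hy2
  by_cases h3 : (pv S (a 0) : ℝ) < 1 / 2
  · have : t = 1 := if_pos h3
    rw [this] at h2
    simp only [Set.Icc.coe_one] at h2
    linarith [h2.1]
  · have : t = 0 := if_neg h3
    rw [this] at h2
    simp only [Set.Icc.coe_zero] at h2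
    push Not at h3
    linarith [h2.2]

/-- The complete theory of `S0` is stable, even superstable, and does not have enough d-definable
sets. In all its models, over all sets `A` of parameters, a d-definable set of elements is contained
in a finite subset of `A` or contains all the elements outside a finite subset of `A`. For elements
`a, b` outside `A` with different types over `A`, the set of realisations of the type of `a` over `A`
is not an intersection of sets which are d-definable over `A`; if `A` is finite, this is so for each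
element `a` outside `A`. -/
theorem result :
    Countable L0.Pred ∧ Stable (Th S0) ∧ Superstable (Th S0) ∧ ¬ HasEnough (Th S0) ∧
    ∀ (M : Type) [MetricSpace M] [CompleteSpace M] [Nonempty M] (S : Str L0 M),
      Models S (Th S0) →
      (∀ (A : Set M) (D : Set (Fin 1 → M)), DDef S A D → ∃ F : Set M, F.Finite ∧ F ⊆ A ∧
        ((∀ x ∈ D, x 0 ∈ F) ∨ ∀ x : Fin 1 → M, x 0 ∉ F → x ∈ D)) ∧
      (∀ (A : Set M) (a b : Fin 1 → M), a 0 ∉ A → b 0 ∉ A → ¬ SameType S A b a →
        ¬ ∃ C : Set (Set (Fin 1 → M)), (∀ D ∈ C, DDef S A D) ∧ {x | SameType S A x a} = ⋂₀ C) ∧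
      (∀ A : Set M, A.Finite → ∀ a : Fin 1 → M, a 0 ∉ A →
        ¬ ∃ C : Set (Set (Fin 1 → M)), (∀ D ∈ C, DDef S A D) ∧ {x | SameType S A x a} = ⋂₀ C) := by
  refine ⟨inferInstanceAs (Countable Unit), stable_Th, superstable_Th, ?_, ?_⟩
  · intro h
    exact not_inter_finite (nice_of_models S0 models_S0) ∅ Set.finite_empty
      (fun _ => ((0 : unitInterval), (0 : ℕ))) (Set.notMem_empty _) (h M0 S0 models_S0 ∅ 1 _)
  · intro M _ _ _ S hM
    have hS := nice_of_models S hM
    exact ⟨ddef_trivial hS, not_inter hS, not_inter_finite hS⟩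

end Pool.Agent.Results.MP_cc3859_lc.StableWithoutDefinableSets
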